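import Pool.Agent.H923R2.FZ.Stubs1

set_option autoImplicit false

noncomputable section

namespace Pool.Agent.H923R2.FZ.T_R0

open Pool.Agent.H923R2.FP Pool.Agent.H923R2.FZ

variable {B : Type} [CStarAlgebra B]

theorem hmul (T : B) (hT : IsSelfAdjoint T) (f g : ℝ → ℝ) (hf : Continuous f)
    (hg : Continuous g) : cfc f T * cfc g T = cfc (fun t => f t * g t) T :=
  (cfc_mul f g T hf.continuousOn hg.continuousOn).symm

theorem PC_cfc (T : B) (hT : IsSelfAdjoint T) (f : ℝ → ℝ) (hf : Continuous f)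
    (h : ∀ t, 0 ≤ f t ∧ f t ≤ 1) : PC (cfc f T) := by
  refine ⟨cfc_predicate f T, ?_⟩
  rw [cfc_map_spectrum f T hT hf.continuousOn]
  rintro _ ⟨t, _, rfl⟩
  exact h t

theorem star_cfc (T : B) (f : ℝ → ℝ) : star (cfc f T) = cfc f T :=
  (cfc_predicate (R := ℝ) f T : IsSelfAdjoint (cfc f T)).star_eq

/-- polar decomposition of a unit -/
theorem polar (y : B) (hy : IsUnit y) : ∃ w : unitary B, ∀ E b : B,
    star y * y * E = E → y * E = b → (w : B) * E = b := by
  set k : B := star y * y with hk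
  have hksa : IsSelfAdjoint k := IsSelfAdjoint.star_mul_self y
  have hku : IsUnit k := hy.star.mul hy
  have hk0 : ∀ t ∈ spectrum ℝ k, 0 < t := by
    intro t ht
    have h1 : 0 ≤ t := spectrum_star_mul_self_nonneg t ht
    rcases h1.lt_or_eq with h2 | h2
    · exact h2
    · exfalso
      exact (spectrum.zero_notMem_iff ℝ).2 hku (h2 ▸ ht)
  have hs0 : ∀ t ∈ spectrum ℝ k, 0 < Real.sqrt t := fun t ht => Real.sqrt_pos.2 (hk0 t ht)
  have hc1 : ContinuousOn (fun t : ℝ => 1 / Real.sqrt t) (spectrum ℝ k) :=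
    continuousOn_const.div Real.continuous_sqrt.continuousOn fun t ht => (hs0 t ht).ne'
  have hc2 : ContinuousOn (fun t : ℝ => 1 / (Real.sqrt t * (Real.sqrt t + 1))) (spectrum ℝ k) := by
    refine continuousOn_const.div ?_ fun t ht => ?_
    · exact (Real.continuous_sqrt.mul (Real.continuous_sqrt.add continuous_const)).continuousOn
    · have := hs0 t ht
      positivity
  set h : B := cfc (fun t : ℝ => 1 / Real.sqrt t) k with hh
  have hhs : star h = h := star_cfc k _
  have hid : cfc (fun t : ℝ => t) k = k := cfc_id' ℝ k hksa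
  have hhk : h * k * h = 1 := by
    conv_lhs => rw [← hid]
    rw [hh, ← cfc_mul (fun t : ℝ => 1 / Real.sqrt t) (fun t : ℝ => t) k hc1 continuousOn_id,
      ← cfc_mul (fun t : ℝ => 1 / Real.sqrt t * t) (fun t : ℝ => 1 / Real.sqrt t) k
        (hc1.mul continuousOn_id) hc1, ← cfc_const_one ℝ k hksa]
    apply cfc_congr
    intro t ht
    have h1 := hs0 t ht
    have h2 : Real.sqrt t * Real.sqrt t = t := Real.mul_self_sqrt (hk0 t ht).le
    simp only
    field_simp
    nlinarith
  have h1h : 1 - h = cfc (fun t : ℝ => 1 / (Real.sqrt t * (Real.sqrt t + 1))) k * (k - 1) := by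
    conv_rhs => rw [← cfc_const_one ℝ k hksa]
    conv_rhs => enter [2, 1]; rw [← hid]
    rw [← cfc_const_one ℝ k hksa, hh, ← cfc_sub (fun _ : ℝ => (1 : ℝ)) _ k continuousOn_const hc1,
      ← cfc_sub (fun t : ℝ => t) (fun _ : ℝ => (1 : ℝ)) k continuousOn_id continuousOn_const,
      ← cfc_mul (fun t : ℝ => 1 / (Real.sqrt t * (Real.sqrt t + 1))) (fun t : ℝ => t - 1) k hc2
        (continuousOn_id.sub continuousOn_const)]
    apply cfc_congr
    intro t ht
    have h1 := hs0 t ht
    have h2 : Real.sqrt t * Real.sqrt t = t := Real.mul_self_sqrt (hk0 t ht).le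
    simp only
    field_simp
    nlinarith
  have hhu : IsUnit h := by
    have h1 : h * (k * h) = 1 := by rw [← mul_assoc]; exact hhk
    have h2 : (h * k) * h = 1 := hhk
    exact ⟨⟨h, k * h, h1, by
      have h3 : h * k = k * h := by
        have hcom := (cfc_commute_cfc (fun t : ℝ => 1 / Real.sqrt t) (fun t : ℝ => t) k).eq
        rw [hid] at hcom
        exact hcom
      rw [← h3]
      exact h2⟩, rfl⟩
  have hw1 : star (y * h) * (y * h) = 1 := by
    rw [star_mul, hhs, mul_assoc, ← mul_assoc (star y), ← hk, ← mul_assoc]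
    exact hhk
  have hwu : IsUnit (y * h) := hy.mul hhu
  have hw2 : (y * h) * star (y * h) = 1 := by
    obtain ⟨u, hu⟩ := hwu
    rw [← hu] at hw1 ⊢
    have h1 : star (u : B) = ((u⁻¹ : Bˣ) : B) := by
      calc star (u : B) = star (u : B) * (u * ((u⁻¹ : Bˣ) : B)) := by simp
        _ = ((u⁻¹ : Bˣ) : B) := by rw [← mul_assoc, hw1, one_mul]
    rw [h1]
    simp
  refine ⟨⟨y * h, Unitary.mem_iff.2 ⟨hw1, hw2⟩⟩, fun E b hE hb => ?_⟩
  have h3 : (1 - h) * E = 0 := by
    rw [h1h, mul_assoc, sub_mul, hE, one_mul, sub_self, mul_zero]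
  have h4 : h * E = E := by
    rw [sub_mul, one_mul, sub_eq_zero] at h3
    exact h3.symm
  change y * h * E = b
  rw [mul_assoc, h4, hb]

/-- the cut-off function -/
def cc (η0 : ℝ) (t : ℝ) : ℝ := max 0 (min 1 ((Real.sqrt t - η0) / (η0 / 2)))

/-- the second cut-off function -/
def c0 (η0 η : ℝ) (t : ℝ) : ℝ := max 0 (1 - (1 - cc η0 t) / η)

theorem cc_cont (η0 : ℝ) : Continuous (cc η0) := by
  unfold cc
  fun_prop

theorem c0_cont (η0 η : ℝ) : Continuous (c0 η0 η) := by
  unfold c0
  have := cc_cont η0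
  fun_prop

theorem cc_01 (η0 t : ℝ) : 0 ≤ cc η0 t ∧ cc η0 t ≤ 1 := by
  unfold cc
  exact ⟨le_max_left _ _, max_le zero_le_one (min_le_left _ _)⟩

theorem c0_01 (η0 η t : ℝ) (hη : 0 < η) : 0 ≤ c0 η0 η t ∧ c0 η0 η t ≤ 1 := by
  unfold c0
  have h1 := (cc_01 η0 t).2
  have h2 : 0 ≤ (1 - cc η0 t) / η := div_nonneg (by linarith) hη.le
  exact ⟨le_max_left _ _, max_le zero_le_one (by linarith)⟩

theorem cc_ne (η0 t : ℝ) (hη0 : 0 < η0) (h : cc η0 t ≠ 0) : η0 ≤ Real.sqrt t := by
  by_contra hlt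
  rw [not_le] at hlt
  apply h
  unfold cc
  rw [max_eq_left]
  refine (min_le_right _ _).trans ?_
  exact div_nonpos_of_nonpos_of_nonneg (by linarith) (by linarith)

theorem cc_one (η0 t : ℝ) (hη0 : 0 < η0) (h : 2 * η0 ≤ Real.sqrt t) : cc η0 t = 1 := by
  unfold cc
  rw [min_eq_left, max_eq_right zero_le_one]
  rw [le_div_iff₀ (by linarith)]
  linarith

theorem c0_one (η0 η t : ℝ) (h : cc η0 t = 1) : c0 η0 η t = 1 := by
  unfold c0
  rw [h]
  simp

theorem c0_ne (η0 η t : ℝ) (hη : 0 < η) (h : c0 η0 η t ≠ 0) : 1 - cc η0 t ≤ η := by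
  by_contra hlt
  rw [not_le] at hlt
  apply h
  unfold c0
  rw [max_eq_left]
  have : 1 ≤ (1 - cc η0 t) / η := by
    rw [le_div_iff₀ hη]
    linarith
  linarith

theorem sqrt_ne {u : ℝ} (h : Real.sqrt u ≠ 0) : u ≠ 0 := by
  rintro rfl
  exact h Real.sqrt_zero

theorem sqrt_01 {u : ℝ} (h : 0 ≤ u ∧ u ≤ 1) : 0 ≤ Real.sqrt u ∧ Real.sqrt u ≤ 1 :=
  ⟨Real.sqrt_nonneg _, Real.sqrt_le_one.2 h.2⟩


theorem t_R0 (hINV : S_INV) : S_R0 := by
  intro B _ hSR x ε hε
  set T : B := star x * x with hTdef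
  have hT : IsSelfAdjoint T := IsSelfAdjoint.star_mul_self x
  have hT0 : ∀ t ∈ spectrum ℝ T, 0 ≤ t := spectrum_star_mul_self_nonneg
  have hidT : cfc (fun t : ℝ => t) T = T := cfc_id' ℝ T hT
  obtain ⟨η0, hη0, hη0ε⟩ : ∃ η0 : ℝ, 0 < η0 ∧ 2 * η0 = Real.sqrt ε :=
    ⟨Real.sqrt ε / 2, by have := Real.sqrt_pos.2 hε; positivity, by ring⟩
  have hmax0 : ∀ t : ℝ, 0 < max (Real.sqrt t) η0 := fun t => lt_max_of_lt_right hη0
  obtain ⟨q, hqdef⟩ : ∃ q : ℝ → ℝ, ∀ t, q t = 1 / max (Real.sqrt t) η0 := ⟨_, fun t => rfl⟩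
  have hq : Continuous q := by
    have h1 : q = fun t => 1 / max (Real.sqrt t) η0 := funext hqdef
    rw [h1]
    exact continuous_const.div (Real.continuous_sqrt.max continuous_const)
      fun t => (hmax0 t).ne'
  have hidc : Continuous (fun t : ℝ => t) := continuous_id
  set b : B := x * cfc q T with hb
  have hbb : star b * b = cfc (fun t => q t * t * q t) T := by
    rw [hb, star_mul, star_cfc, mul_assoc, ← mul_assoc (star x), ← hTdef, ← mul_assoc]
    conv_lhs => enter [1, 2]; rw [← hidT]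
    rw [hmul T hT _ _ hq hidc, hmul T hT (fun t => q t * t) q (hq.mul hidc) hq]
  -- `b* b` is a unit above `η0`
  have hbbf : ∀ f : ℝ → ℝ, Continuous f → (∀ t, f t ≠ 0 → η0 ≤ Real.sqrt t) →
      star b * b * cfc f T = cfc f T := by
    intro f hf hf0
    rw [hbb, hmul T hT (fun t => q t * t * q t) f ((hq.mul hidc).mul hq) hf]
    apply cfc_congr
    intro t ht
    simp only
    by_cases h0 : f t = 0
    · rw [h0, mul_zero]
    · have h1 := hf0 t h0
      have h2 : 0 < Real.sqrt t := hη0.trans_le h1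
      have h3 : Real.sqrt t * Real.sqrt t = t := Real.mul_self_sqrt (hT0 t ht)
      rw [hqdef, max_eq_left h1]
      have h4 : 1 / Real.sqrt t * t * (1 / Real.sqrt t) = 1 := by
        nth_rewrite 2 [← h3]
        field_simp
      rw [h4, one_mul]
  have hb1 : ‖b‖ ≤ 1 := by
    have h1 : ‖star b * b‖ ≤ 1 := by
      rw [hbb]
      refine norm_cfc_le zero_le_one fun t ht => ?_
      have h3 : Real.sqrt t * Real.sqrt t = t := Real.mul_self_sqrt (hT0 t ht)
      have h4 := hmax0 t
      have h5 : Real.sqrt t ≤ max (Real.sqrt t) η0 := le_max_left _ _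
      have h6 : 0 ≤ Real.sqrt t := Real.sqrt_nonneg t
      rw [hqdef, Real.norm_eq_abs, abs_of_nonneg (by
        have := hT0 t ht
        positivity)]
      have h7 : 1 / max (Real.sqrt t) η0 * t * (1 / max (Real.sqrt t) η0) =
          t / (max (Real.sqrt t) η0 * max (Real.sqrt t) η0) := by
        field_simp
      rw [h7, div_le_one (by positivity)]
      nlinarith
    rw [CStarRing.norm_star_mul_self] at h1
    nlinarith [norm_nonneg b]
  obtain ⟨z, hz, hbz⟩ := hSR b hb1
  obtain ⟨nz, hnz⟩ : ∃ nz : ℝ, nz = ‖Ring.inverse z‖ := ⟨_, rfl⟩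
  have hnz0 : 0 ≤ nz := hnz ▸ norm_nonneg _
  obtain ⟨η, hη⟩ : ∃ η : ℝ, η = 1 / (4 * (1 + nz) ^ 2) := ⟨_, rfl⟩
  have hη0' : 0 < η := by rw [hη]; positivity
  have hη1 : η ≤ 1 / 4 := by
    rw [hη]
    apply one_div_le_one_div_of_le (by norm_num)
    nlinarith
  have hcc := cc_cont η0
  have hc0 := c0_cont η0 η
  have hccs : Continuous (fun t => Real.sqrt (cc η0 t)) := Real.continuous_sqrt.comp hcc
  have hc0s : Continuous (fun t => Real.sqrt (c0 η0 η t)) := Real.continuous_sqrt.comp hc0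
  set e : B := cfc (cc η0) T with he
  set r : B := cfc (fun t => Real.sqrt (cc η0 t)) T with hr
  set e0 : B := cfc (c0 η0 η) T with he0
  set r0 : B := cfc (fun t => Real.sqrt (c0 η0 η t)) T with hr0
  have hPe : PC e := PC_cfc T hT _ hcc (cc_01 η0)
  have hPe0 : PC e0 := PC_cfc T hT _ hc0 fun t => c0_01 η0 η t hη0'
  have hPr : PC r := PC_cfc T hT _ hccs fun t => sqrt_01 (cc_01 η0 t)
  have hPr0 : PC r0 := PC_cfc T hT _ hc0s fun t => sqrt_01 (c0_01 η0 η t hη0')
  have hrr : r * r = e := by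
    rw [hr, hmul T hT _ _ hccs hccs]
    apply cfc_congr
    intro t _
    exact Real.mul_self_sqrt (cc_01 η0 t).1
  have hr0r0 : r0 * r0 = e0 := by
    rw [hr0, hmul T hT _ _ hc0s hc0s]
    apply cfc_congr
    intro t _
    exact Real.mul_self_sqrt (c0_01 η0 η t hη0').1
  have hbe : star b * b * e = e := hbbf _ hcc fun t ht => cc_ne η0 t hη0 ht
  have hbr : star b * b * r = r := hbbf _ hccs fun t ht => cc_ne η0 t hη0 (sqrt_ne ht)
  have hc0cc : ∀ t, c0 η0 η t ≠ 0 → η0 ≤ Real.sqrt t := by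
    intro t ht
    have h1 := c0_ne η0 η t hη0' ht
    apply cc_ne η0 t hη0
    intro h2
    rw [h2] at h1
    linarith
  have hbr0 : star b * b * r0 = r0 := hbbf _ hc0s fun t ht => hc0cc t (sqrt_ne ht)
  -- norms
  have hnr : ‖r‖ ≤ 1 := norm_cfc_le zero_le_one fun t _ => by
    have h1 := sqrt_01 (cc_01 η0 t)
    rw [Real.norm_eq_abs, abs_of_nonneg h1.1]
    exact h1.2
  have hnr0 : ‖r0‖ ≤ 1 := norm_cfc_le zero_le_one fun t _ => by
    have h1 := sqrt_01 (c0_01 η0 η t hη0')
    rw [Real.norm_eq_abs, abs_of_nonneg h1.1]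
    exact h1.2
  -- `P`
  set P : B := 1 - e + r * star b * z * r with hP
  have hPu : IsUnit P := by
    have h1 : P = 1 - r * star b * (b - z) * r := by
      have h2 : r * star b * b * r = e := by
        rw [mul_assoc (r * star b), mul_assoc r, ← mul_assoc (star b), hbr, hrr]
      rw [hP, mul_sub, sub_mul, h2]
      abel
    rw [h1]
    apply isUnit_one_sub_of_norm_lt_one
    have h3 : ‖r * star b * (b - z) * r‖ ≤ ‖r‖ * ‖star b‖ * ‖b - z‖ * ‖r‖ := by
      refine (norm_mul_le _ _).trans ?_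
      gcongr
      refine (norm_mul_le _ _).trans ?_
      gcongr
      exact norm_mul_le _ _
    have h4 : ‖r‖ * ‖star b‖ * ‖b - z‖ * ‖r‖ ≤ 1 * 1 * ‖b - z‖ * 1 := by
      rw [norm_star]
      gcongr
    refine (h3.trans h4).trans_lt ?_
    rw [one_mul, one_mul, mul_one]
    exact hbz
  -- `A`
  obtain ⟨Af, hAf⟩ : ∃ Af : ℝ → ℝ, ∀ t, Af t = 1 - cc η0 t + cc η0 t * c0 η0 η t :=
    ⟨_, fun t => rfl⟩
  have hAc : Continuous Af := by
    rw [funext hAf]
    exact (continuous_const.sub hcc).add (hcc.mul hc0)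
  have hA0 : ∀ t, 0 < Af t := by
    intro t
    rw [hAf]
    have h1 := cc_01 η0 t
    have h2 := c0_01 η0 η t hη0'
    rcases h1.2.lt_or_eq with h3 | h3
    · have := mul_nonneg h1.1 h2.1
      linarith
    · rw [h3, c0_one η0 η t h3]
      norm_num
  have hAic : Continuous (fun t => 1 / Af t) := continuous_const.div hAc fun t => (hA0 t).ne'
  set a' : B := cfc (fun t => 1 / Af t) T with ha'
  have hone : cfc (fun _ : ℝ => (1 : ℝ)) T = 1 := cfc_const_one ℝ T hT
  have h1e : 1 - e = cfc (fun t => 1 - cc η0 t) T := by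
    rw [← hone, he, cfc_sub (fun _ : ℝ => (1 : ℝ)) (cc η0) T continuousOn_const hcc.continuousOn]
  have hae : 1 - e + e * e0 = cfc Af T := by
    rw [h1e, he, he0, hmul T hT _ _ hcc hc0,
      ← cfc_add T (fun t => 1 - cc η0 t) (fun t => cc η0 t * c0 η0 η t)
        (continuous_const.sub hcc).continuousOn (hcc.mul hc0).continuousOn]
    apply cfc_congr
    intro t _
    exact (hAf t).symm
  have haa' : (1 - e + e * e0) * a' = 1 := by
    rw [hae, ha', hmul T hT _ _ hAc hAic, ← hone]
    apply cfc_congr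
    intro t _
    have := (hA0 t).ne'
    simp only
    field_simp
  have ha'a : a' * (1 - e + e * e0) = 1 := by
    rw [hae, ha', hmul T hT _ _ hAic hAc, ← hone]
    apply cfc_congr
    intro t _
    have := (hA0 t).ne'
    simp only
    field_simp
  have hnorm : ‖r0 * Ring.inverse z * b * r0 * (1 - e) * a'‖ < 1 := by
    have h1 : ‖r0 * (1 - e) * a'‖ ≤ Real.sqrt η := by
      rw [h1e, hr0, ha', hmul T hT (fun t => Real.sqrt (c0 η0 η t)) (fun t => 1 - cc η0 t) hc0s
          (continuous_const.sub hcc),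
        hmul T hT (fun t => Real.sqrt (c0 η0 η t) * (1 - cc η0 t)) (fun t => 1 / Af t)
          (hc0s.mul (continuous_const.sub hcc)) hAic]
      refine norm_cfc_le (Real.sqrt_nonneg _) fun t _ => ?_
      have g1 := cc_01 η0 t
      have g2 := c0_01 η0 η t hη0'
      have g3 := hA0 t
      have g4 : 0 ≤ 1 - cc η0 t := by linarith
      have g5 := Real.sqrt_nonneg (c0 η0 η t)
      rw [Real.norm_eq_abs, abs_of_nonneg (by positivity)]
      by_cases g6 : c0 η0 η t = 0
      · rw [g6, Real.sqrt_zero, zero_mul, zero_mul]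
        exact Real.sqrt_nonneg _
      · have g7 := c0_ne η0 η t hη0' g6
        apply Real.le_sqrt_of_sq_le
        have g8 : Real.sqrt (c0 η0 η t) ^ 2 = c0 η0 η t := Real.sq_sqrt g2.1
        have g9 : (Real.sqrt (c0 η0 η t) * (1 - cc η0 t) * (1 / Af t)) ^ 2 =
            c0 η0 η t * (1 - cc η0 t) ^ 2 / Af t ^ 2 := by
          rw [mul_pow, mul_pow, g8]
          field_simp
        rw [g9, div_le_iff₀ (by positivity), hAf]
        set C := cc η0 t
        set D := c0 η0 η t
        -- (1-C) ≤ η, C ≥ 3/4; (1 - C + C D)^2 ≥ 4 (1-C) C D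
        have k1 : 4 * ((1 - C) * (C * D)) ≤ (1 - C + C * D) ^ 2 := by
          nlinarith [sq_nonneg ((1 - C) - C * D)]
        have k2 : (3 / 4 : ℝ) ≤ C := by linarith
        have k3 : D * (1 - C) ^ 2 ≤ η * (4 * ((1 - C) * (C * D))) := by
          have k4 : 0 ≤ D * (1 - C) := mul_nonneg g2.1 g4
          have k5 : D * (1 - C) * (1 - C) ≤ D * (1 - C) * η := mul_le_mul_of_nonneg_left g7 k4
          have k6 : D * (1 - C) * η ≤ D * (1 - C) * η * (4 * C) := by
            have : 0 ≤ D * (1 - C) * η := mul_nonneg k4 hη0'.le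
            nlinarith
          nlinarith
        calc D * (1 - C) ^ 2 ≤ η * (4 * ((1 - C) * (C * D))) := k3
          _ ≤ η * (1 - C + C * D) ^ 2 := mul_le_mul_of_nonneg_left k1 hη0'.le
    have h2 : r0 * Ring.inverse z * b * r0 * (1 - e) * a' =
        r0 * Ring.inverse z * b * (r0 * (1 - e) * a') := by
      simp only [mul_assoc]
    rw [h2]
    have h3 : ‖r0 * Ring.inverse z * b‖ ≤ 1 * nz * 1 := by
      refine (norm_mul_le _ _).trans ?_
      have : ‖r0 * Ring.inverse z‖ ≤ 1 * nz := by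
        refine (norm_mul_le _ _).trans ?_
        rw [hnz]
        gcongr
      gcongr
    have h4 : Real.sqrt η = 1 / (2 * (1 + nz)) := by
      rw [hη]
      have : 1 / (4 * (1 + nz) ^ 2) = (1 / (2 * (1 + nz))) ^ 2 := by
        field_simp
        ring
      rw [this, Real.sqrt_sq (by positivity)]
    calc ‖r0 * Ring.inverse z * b * (r0 * (1 - e) * a')‖ ≤
        ‖r0 * Ring.inverse z * b‖ * ‖r0 * (1 - e) * a'‖ := norm_mul_le _ _
      _ ≤ (1 * nz * 1) * Real.sqrt η := by gcongr
      _ < 1 := by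
        rw [h4, one_mul, mul_one, mul_one_div, div_lt_one (by positivity)]
        linarith
  have hyu : IsUnit (z - z * r * Ring.inverse P * r * star b * z + b * e0) :=
    hINV B z b e e0 hz hPe hPe0 (cfc_commute_cfc _ _ T) hbe r r0 hPr hPr0 hrr hr0r0
      (cfc_commute_cfc _ _ T) (cfc_commute_cfc _ _ T) (cfc_commute_cfc _ _ T) hbr hbr0 P hP hPu
      _ a' rfl haa' ha'a (cfc_commute_cfc _ _ T) (cfc_commute_cfc _ _ T) (cfc_commute_cfc _ _ T)
      (cfc_commute_cfc _ _ T) hnorm
  obtain ⟨w, hw⟩ := polar _ hyu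
  refine ⟨w, fun G hG hG0 => ?_⟩
  set E : B := cfc G T with hE
  have hGt : ∀ t, G t ≠ 0 → 2 * η0 ≤ Real.sqrt t := by
    intro t ht
    have h1 : ε < t := by
      by_contra h2
      exact ht (hG0 t (not_lt.1 h2))
    rw [hη0ε]
    exact Real.sqrt_le_sqrt h1.le
  have hfE : ∀ f : ℝ → ℝ, Continuous f → (∀ t, G t ≠ 0 → f t = 1) → cfc f T * E = E := by
    intro f hf hf1
    rw [hE, hmul T hT _ _ hf hG]
    apply cfc_congr
    intro t _
    simp only
    by_cases h : G t = 0
    · rw [h, mul_zero]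
    · rw [hf1 t h, one_mul]
  have heE : e * E = E := hfE _ hcc fun t ht => cc_one η0 t hη0 (hGt t ht)
  have hrE : r * E = E := hfE _ hccs fun t ht => by
    rw [cc_one η0 t hη0 (hGt t ht), Real.sqrt_one]
  have he0E : e0 * E = E := hfE _ hc0 fun t ht => c0_one η0 η t (cc_one η0 t hη0 (hGt t ht))
  have hEe : E * e = E := by
    rw [(cfc_commute_cfc G (cc η0) T).eq]
    exact heE
  have hEr : E * r = E := by
    rw [(cfc_commute_cfc G (fun t => Real.sqrt (cc η0 t)) T).eq]
    exact hrE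
  have hbbE : star b * b * E = E := hbbf G hG fun t ht => by
    have := hGt t ht
    linarith
  set S : B := z - z * r * Ring.inverse P * r * star b * z with hS
  have hSE : S * E = 0 := by
    have h1 : P * E = r * star b * z * E := by
      rw [hP, add_mul, sub_mul, one_mul, heE, sub_self, zero_add, mul_assoc (r * star b * z), hrE]
    have h2 : Ring.inverse P * (r * star b * z * E) = E := by
      rw [← h1, ← mul_assoc, Ring.inverse_mul_cancel _ hPu, one_mul]
    rw [hS, sub_mul]
    have h3 : z * r * Ring.inverse P * r * star b * z * E =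
        z * r * (Ring.inverse P * (r * star b * z * E)) := by
      simp only [mul_assoc]
    rw [h3, h2, mul_assoc, hrE, sub_self]
  have hEbS : E * star b * S = 0 := by
    have h1 : E * P = E * star b * z * r := by
      rw [hP, mul_add, mul_sub, mul_one, hEe, sub_self, zero_add]
      simp only [← mul_assoc]
      rw [hEr]
    have h2 : E * star b * z * r * Ring.inverse P = E := by
      rw [← h1, mul_assoc, Ring.mul_inverse_cancel _ hPu, mul_one]
    rw [hS, mul_sub]
    have h3 : E * star b * (z * r * Ring.inverse P * r * star b * z) =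
        (E * star b * z * r * Ring.inverse P) * (r * star b * z) := by
      simp only [mul_assoc]
    rw [h3, h2]
    have h4 : E * (r * star b * z) = E * star b * z := by
      simp only [← mul_assoc]
      rw [hEr]
    rw [h4, sub_self]
  have hyE : (S + b * e0) * E = b * E := by
    rw [add_mul, hSE, zero_add, mul_assoc, he0E]
  have hysE : star (S + b * e0) * (b * E) = E := by
    have h1 : star S * (b * E) = 0 := by
      have h2 := congrArg star hEbS
      rw [star_zero, star_mul, star_mul, star_star, star_cfc] at h2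
      exact h2
    rw [star_add, add_mul, h1, zero_add, star_mul, star_cfc, mul_assoc, ← mul_assoc (star b),
      hbbE, he0E]
  have hfin := hw E (b * E) (by rw [mul_assoc, hyE, hysE]) hyE
  rw [hfin, hb, mul_assoc, hE, hmul T hT _ _ hq hG]
  congr 1
  apply cfc_congr
  intro t _
  simp only
  by_cases h : G t = 0
  · rw [h, mul_zero, zero_div]
  · have h1 := hGt t h
    rw [hqdef, max_eq_left (by linarith)]
    ring

end Pool.Agent.H923R2.FZ.T_R0
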