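import Mathlib
import Pool.Agent.H925R3.DD.Stubs

set_option autoImplicit false

namespace Pool.Agent.H386R6.DD_ROOT

open Finset

theorem fiber_card {V B : Type} [AddCommGroup V] [AddCommGroup B] [Fintype V] [Fintype B]
    [DecidableEq B] (L : V →+ B) (hL : Function.Surjective L) (b : B) :
    Fintype.card B * (univ.filter (fun s => L s = b)).card = Fintype.card V := by
  classical
  have h1 : (univ : Finset V).card = ∑ c : B, (univ.filter (fun s => L s = c)).card :=
    Finset.card_eq_sum_card_fiberwise (fun _ _ => Finset.mem_coe.2 (Finset.mem_univ _))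
  have h2 : ∀ c : B, (univ.filter (fun s => L s = c)).card =
      (univ.filter (fun s => L s = b)).card := by
    intro c
    obtain ⟨t, ht⟩ := hL (c - b)
    refine Finset.card_bij (fun s _ => s - t) ?_ ?_ ?_
    · intro s hs
      simp only [Finset.mem_filter, Finset.mem_univ, true_and] at hs ⊢
      rw [map_sub, hs, ht]
      abel
    · intro s _ s' _ h
      simpa using h
    · intro s hs
      simp only [Finset.mem_filter, Finset.mem_univ, true_and] at hs
      refine ⟨s + t, ?_, by simp⟩
      simp only [Finset.mem_filter, Finset.mem_univ, true_and]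
      rw [map_add, hs, ht]
      abel
  rw [Finset.sum_congr rfl (fun c _ => h2 c), Finset.sum_const, Finset.card_univ,
    Finset.card_univ, smul_eq_mul] at h1
  exact h1.symm

/-- evaluation as an additive map -/
def evL (p d : ℕ) (w : ZMod p) : (Fin d → ZMod p) →+ ZMod p where
  toFun s := ∑ i : Fin d, s i * w ^ (d - 1 - i.1)
  map_zero' := by simp
  map_add' s t := by simp [add_mul, Finset.sum_add_distrib]

theorem evL_apply (p d : ℕ) (w : ZMod p) (s : Fin d → ZMod p) :
    evL p d w s = ∑ i : Fin d, s i * w ^ (d - 1 - i.1) := rfl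

theorem evL_single (p d : ℕ) (w : ZMod p) (i : Fin d) (c : ZMod p) :
    evL p d w (Pi.single i c) = c * w ^ (d - 1 - i.1) := by
  rw [evL_apply, Finset.sum_eq_single i]
  · rw [Pi.single_eq_same]
  · intro j _ hj
    rw [Pi.single_eq_of_ne hj, zero_mul]
  · intro h
    exact absurd (Finset.mem_univ _) h

theorem surj1 (p d : ℕ) (hd : 2 ≤ d) (w : ZMod p) : Function.Surjective (evL p d w) := by
  intro c
  refine ⟨Pi.single ⟨d - 1, by omega⟩ c, ?_⟩
  rw [evL_single]
  simp

theorem surj2 (p d : ℕ) [Fact p.Prime] (hd : 2 ≤ d) (w w' : ZMod p) (hw : w ≠ w') :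
    Function.Surjective ((evL p d w).prod (evL p d w')) := by
  rintro ⟨c, c'⟩
  have hne : w - w' ≠ 0 := sub_ne_zero.2 hw
  refine ⟨Pi.single ⟨d - 2, by omega⟩ ((c - c') / (w - w')) +
    Pi.single ⟨d - 1, by omega⟩ (c - (c - c') / (w - w') * w), ?_⟩
  have h1 : d - 1 - (d - 2) = 1 := by omega
  rw [AddMonoidHom.prod_apply, map_add, map_add, evL_single, evL_single, evL_single, evL_single]
  simp only [h1, pow_one, Nat.sub_self, pow_zero, mul_one]
  apply Prod.ext
  · simp
  · simp only
    field_simp
    ring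

theorem root : Pool.Agent.H925R3.DD.ROOT := by
  classical
  intro p d hp hd
  haveI := Fact.mk hp
  -- the indicator
  let χ : (Fin d → ZMod p) → ZMod p → ℝ := fun s w =>
    if w ^ d + evL p d w s = 0 then 1 else 0
  have hχ2 : ∀ s w, χ s w * χ s w = χ s w := by
    intro s w
    simp only [χ]
    split_ifs <;> simp
  let N : (Fin d → ZMod p) → ℝ := fun s => ∑ w, χ s w
  have hNcard : ∀ s, N s = ((univ.filter (fun w : ZMod p => w ^ d + evL p d w s = 0)).card : ℝ) := by
    intro s
    simp [N, χ]
  have hNle : ∀ s, (univ.filter (fun w : ZMod p => w ^ d + evL p d w s = 0)).card ≤ d := by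
    intro s
    let f : Polynomial (ZMod p) := Polynomial.X ^ d +
      ∑ i : Fin d, Polynomial.C (s i) * Polynomial.X ^ (d - 1 - i.1)
    have hdeg : (∑ i : Fin d, Polynomial.C (s i) * Polynomial.X ^ (d - 1 - i.1)).degree <
        (d : WithBot ℕ) := by
      rw [← Polynomial.mem_degreeLT]
      refine Submodule.sum_mem _ fun i _ => ?_
      rw [Polynomial.mem_degreeLT]
      refine lt_of_le_of_lt (Polynomial.degree_C_mul_X_pow_le _ _) ?_
      exact_mod_cast (by omega : d - 1 - i.1 < d)
    have hf : f.Monic := Polynomial.monic_X_pow_add hdeg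
    have hfd : f.natDegree ≤ d := Polynomial.natDegree_le_iff_degree_le.2
      ((Polynomial.degree_add_le _ _).trans (max_le (Polynomial.degree_X_pow_le _) hdeg.le))
    have hsub : (univ.filter (fun w : ZMod p => w ^ d + evL p d w s = 0)) ⊆ f.roots.toFinset := by
      intro w hw
      simp only [Finset.mem_filter, Finset.mem_univ, true_and] at hw
      rw [Multiset.mem_toFinset, Polynomial.mem_roots hf.ne_zero, Polynomial.IsRoot]
      simp only [f, Polynomial.eval_add, Polynomial.eval_pow, Polynomial.eval_X,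
        Polynomial.eval_finsetSum, Polynomial.eval_mul, Polynomial.eval_C]
      exact hw
    calc _ ≤ f.roots.toFinset.card := Finset.card_le_card hsub
      _ ≤ f.roots.card := Multiset.toFinset_card_le _
      _ ≤ f.natDegree := Polynomial.card_roots' f
      _ ≤ d := hfd
  have hcardV : (Fintype.card (Fin d → ZMod p)) = p ^ d := by
    rw [Fintype.card_fun, ZMod.card, Fintype.card_fin]
  have hp0 : (0 : ℝ) < p := by exact_mod_cast hp.pos
  have hp2 : (2 : ℝ) ≤ p := by exact_mod_cast hp.two_le
  -- one root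
  have hone : ∀ w, ∑ s, χ s w = (p : ℝ) ^ d / p := by
    intro w
    have h1 := fiber_card (evL p d w) (surj1 p d hd w) (-(w ^ d))
    rw [ZMod.card, hcardV] at h1
    have h2 : ∑ s, χ s w = ((univ.filter (fun s => evL p d w s = -(w ^ d))).card : ℝ) := by
      simp only [χ]
      rw [Finset.sum_boole]
      congr 2
      ext s
      simp only [Finset.mem_filter, Finset.mem_univ, true_and]
      rw [add_comm, add_eq_zero_iff_eq_neg]
    rw [h2, eq_div_iff hp0.ne', mul_comm]
    exact_mod_cast h1
  have htwo : ∀ w w', w ≠ w' → ∑ s, χ s w * χ s w' = (p : ℝ) ^ d / (p * p) := by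
    intro w w' hw
    have h1 := fiber_card ((evL p d w).prod (evL p d w')) (surj2 p d hd w w' hw)
      (-(w ^ d), -(w' ^ d))
    rw [Fintype.card_prod, ZMod.card, hcardV] at h1
    have h2 : ∑ s, χ s w * χ s w' = ((univ.filter (fun s =>
        ((evL p d w).prod (evL p d w')) s = (-(w ^ d), -(w' ^ d)))).card : ℝ) := by
      simp only [χ, ← ite_and, mul_ite, mul_one, mul_zero]
      rw [Finset.sum_boole]
      congr 2
      ext s
      simp only [Finset.mem_filter, Finset.mem_univ, true_and, AddMonoidHom.prod_apply,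
        Prod.mk.injEq]
      rw [add_comm, add_eq_zero_iff_eq_neg, add_comm, add_eq_zero_iff_eq_neg, and_comm]
    rw [h2, eq_div_iff (by positivity), mul_comm]
    exact_mod_cast h1
  have hsum1 : ∑ s, N s = (p : ℝ) ^ d := by
    simp only [N]
    rw [Finset.sum_comm, Finset.sum_congr rfl (fun w _ => hone w), Finset.sum_const,
      Finset.card_univ, ZMod.card, nsmul_eq_mul]
    field_simp
  have hN2 : ∀ s, N s * N s - N s = ∑ w, ∑ w', if w = w' then 0 else χ s w * χ s w' := by
    intro s
    have h1 : N s * N s = ∑ w, ∑ w', χ s w * χ s w' := by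
      simp only [N]
      rw [Finset.sum_mul_sum]
    have h2 : N s = ∑ w, ∑ w', if w = w' then χ s w * χ s w' else 0 := by
      simp only [N]
      refine Finset.sum_congr rfl fun w _ => ?_
      rw [Finset.sum_ite_eq, if_pos (Finset.mem_univ _), hχ2]
    rw [h1]
    nth_rewrite 1 [h2]
    rw [← Finset.sum_sub_distrib]
    refine Finset.sum_congr rfl fun w _ => ?_
    rw [← Finset.sum_sub_distrib]
    refine Finset.sum_congr rfl fun w' _ => ?_
    split_ifs <;> ring
  have hsum2 : ∑ s, (N s * N s - N s) = (p : ℝ) ^ d / p * (p - 1) := by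
    rw [Finset.sum_congr rfl (fun s _ => hN2 s), Finset.sum_comm]
    have h3 : ∀ w : ZMod p, ∑ s, ∑ w', (if w = w' then 0 else χ s w * χ s w') =
        (p : ℝ) ^ d / (p * p) * (p - 1) := by
      intro w
      rw [Finset.sum_comm]
      have h4 : ∀ w', ∑ s, (if w = w' then 0 else χ s w * χ s w') =
          (p : ℝ) ^ d / (p * p) - if w = w' then (p : ℝ) ^ d / (p * p) else 0 := by
        intro w'
        by_cases h : w = w'
        · simp [h]
        · simp only [h, if_false, sub_zero]
          exact htwo w w' h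
      rw [Finset.sum_congr rfl (fun w' _ => h4 w'), Finset.sum_sub_distrib, Finset.sum_const,
        Finset.card_univ, ZMod.card, Finset.sum_ite_eq, if_pos (Finset.mem_univ _), nsmul_eq_mul]
      ring
    rw [Finset.sum_congr rfl (fun w _ => h3 w), Finset.sum_const,
        Finset.card_univ, ZMod.card, nsmul_eq_mul]
    field_simp
  -- the pointwise inequality
  have hd1 : (2 : ℝ) ≤ d := by exact_mod_cast hd
  have hD : (0 : ℝ) < d * (d - 1) := by nlinarith
  have hpt : ∀ s, (if ∃ w : ZMod p, w ^ d + evL p d w s = 0 then (1 : ℝ) else 0) ≤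
      N s - (N s * N s - N s) / (d * (d - 1)) := by
    intro s
    have hle := hNle s
    rw [hNcard s]
    set n := (univ.filter (fun w : ZMod p => w ^ d + evL p d w s = 0)).card with hn
    by_cases hex : ∃ w : ZMod p, w ^ d + evL p d w s = 0
    · rw [if_pos hex]
      have hn1 : 1 ≤ n := by
        obtain ⟨w, hw⟩ := hex
        exact Finset.card_pos.2 ⟨w, by simp [hw]⟩
      rcases Nat.lt_or_ge n 2 with h2 | h2
      · have h3 : n = 1 := by omega
        rw [h3]
        simp
      · have hnr : (2 : ℝ) ≤ n := by exact_mod_cast h2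
        have hnd : (n : ℝ) ≤ d := by exact_mod_cast hle
        have h4 : ((n : ℝ) * n - n) / (d * (d - 1)) ≤ 1 := by
          rw [div_le_one hD]
          nlinarith
        linarith
    · rw [if_neg hex]
      have h3 : n = 0 := by
        rw [hn, Finset.card_eq_zero, Finset.filter_eq_empty_iff]
        intro w _ hw
        exact hex ⟨w, hw⟩
      rw [h3]
      simp
  -- the cardinality
  have hcard : (Nat.card (Pool.Agent.H925R3.DD.rootSet p d) : ℝ) =
      ∑ s, (if ∃ w : ZMod p, w ^ d + evL p d w s = 0 then (1 : ℝ) else 0) := by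
    rw [Finset.sum_boole, Nat.card_coe_set_eq]
    have h5 : Pool.Agent.H925R3.DD.rootSet p d =
        ((univ.filter (fun s => ∃ w : ZMod p, w ^ d + evL p d w s = 0) :
          Finset (Fin d → ZMod p)) : Set (Fin d → ZMod p)) := by
      ext s
      rw [Finset.mem_coe, Finset.mem_filter]
      exact ⟨fun h => ⟨Finset.mem_univ _, h⟩, fun h => h.2⟩
    rw [h5, Set.ncard_coe_finset]
  rw [hcard]
  refine (Finset.sum_le_sum fun s _ => hpt s).trans ?_
  rw [Finset.sum_sub_distrib, ← Finset.sum_div, hsum1, hsum2]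
  have hpd : (0 : ℝ) < (p : ℝ) ^ d := by positivity
  have h6 : 1 / (2 * (d : ℝ) ^ 2) * (p : ℝ) ^ d ≤ (p : ℝ) ^ d / p * (p - 1) / (d * (d - 1)) := by
    have h7 : 1 / (2 * (d : ℝ) ^ 2) * (p : ℝ) ^ d = (p : ℝ) ^ d * (1 / (2 * (d : ℝ) ^ 2)) := by ring
    have h8 : (p : ℝ) ^ d / p * (p - 1) / (d * (d - 1)) =
        (p : ℝ) ^ d * ((p - 1) / (p * (d * (d - 1)))) := by
      field_simp
    rw [h7, h8]
    apply mul_le_mul_of_nonneg_left _ hpd.le
    rw [div_le_div_iff₀ (by positivity) (by positivity)]
    nlinarith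
  linarith

end Pool.Agent.H386R6.DD_ROOT
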